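import Pool.Agent.Helper65.JL.Stmts

/-! Row MAP of project JL. -/

set_option autoImplicit false

open Set Filter Topology Pool.Agent.Helper86.TK

namespace Pool.Agent.Helper65.JL

noncomputable section

theorem map70_bdd {X : Type} [NormedAddCommGroup X] [NormedSpace ℝ X] {K : Set X}
    (hK : WCpt K) : ∃ C : ℝ, ∀ x ∈ K, ‖x‖ ≤ C := by
  have h1 : ∀ f : StrongDual ℝ X, ∃ C, ∀ x : K,
      ‖(NormedSpace.inclusionInDoubleDual ℝ X (x : X)) f‖ ≤ C := by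
    intro f
    have hc : Continuous (fun q : WeakSpace ℝ X => (topDualPairing ℝ X).flip q f) :=
      WeakBilin.eval_continuous (topDualPairing ℝ X).flip f
    obtain ⟨C, hC⟩ := (hK.image hc).isBounded.exists_norm_le
    refine ⟨C, fun x => ?_⟩
    exact hC (f x) ⟨toWeakSpace ℝ X x, ⟨x, x.2, rfl⟩, rfl⟩
  obtain ⟨C, hC⟩ := banach_steinhaus
    (g := fun x : K => NormedSpace.inclusionInDoubleDual ℝ X (x : X)) h1
  refine ⟨C, fun x hx => ?_⟩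
  have h2 := hC ⟨x, hx⟩
  have h3 : ‖NormedSpace.inclusionInDoubleDual ℝ X x‖ = ‖x‖ :=
    (NormedSpace.inclusionInDoubleDualLi ℝ (E := X)).norm_map x
  rw [← h3]
  exact h2

theorem map70_smul {Y : Type} [NormedAddCommGroup Y] [NormedSpace ℝ Y] (K : Set Y)
    (hK : WCpt K) (c : ℝ) : WCpt ((fun y => c • y) '' K) := by
  have h : IsCompact ((fun q : WeakSpace ℝ Y => c • q) '' (toWeakSpace ℝ Y '' K)) :=
    hK.image (continuous_const_smul c)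
  have e : (fun q : WeakSpace ℝ Y => c • q) '' (toWeakSpace ℝ Y '' K)
      = toWeakSpace ℝ Y '' ((fun y => c • y) '' K) := by
    rw [image_image, image_image]
    simp only [map_smul]
  rw [e] at h
  exact h

theorem map70_union {Y : Type} [NormedAddCommGroup Y] [NormedSpace ℝ Y] (K L : Set Y)
    (hK : WCpt K) (hL : WCpt L) : WCpt (K ∪ L) := by
  unfold WCpt at hK hL ⊢
  rw [image_union]
  exact hK.union hL

theorem map70_single {Y : Type} [NormedAddCommGroup Y] [NormedSpace ℝ Y] (x : Y) :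
    WCpt ({x} : Set Y) := by
  unfold WCpt
  rw [image_singleton]
  exact isCompact_singleton

theorem map70_biUnion {Y : Type} [NormedAddCommGroup Y] [NormedSpace ℝ Y] {J : Type}
    (s : Set J) (hs : s.Finite) (K : J → Set Y) (h : ∀ j ∈ s, WCpt (K j)) :
    WCpt (⋃ j ∈ s, K j) := by
  unfold WCpt
  rw [image_iUnion₂]
  exact hs.isCompact_biUnion h

theorem map70_UX {Γ : Type} (r : Γ → ℕ → Bool) (η : Γ → ℝ) (hP : Par r η) (x : Γ) :
    ‖UX r η x‖ ≤ 1 := by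
  classical
  change ‖U r η x‖ ≤ 1
  unfold U
  rw [Prod.norm_def]
  refine max_le ?_ ?_
  · simp only
    rw [lp.norm_single (by norm_num)]
    simp
  · refine lp.norm_le_of_forall_le zero_le_one fun t => ?_
    change ‖η x * ind (r x) 0 t‖ ≤ 1
    rw [norm_mul, Real.norm_eq_abs, Real.norm_eq_abs, abs_of_pos (hP.2 x).1]
    have h1 : |ind (r x) 0 t| ≤ 1 := by
      unfold ind
      split_ifs <;> simp
    calc η x * |ind (r x) 0 t| ≤ 1 * 1 :=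
          mul_le_mul (hP.2 x).2 h1 (abs_nonneg _) zero_le_one
      _ = 1 := one_mul 1

/-- the null functions with values 0, 1 caught by `L` -/
theorem map70_QL {Γ : Type} (r : Γ → ℕ → Bool) (η : Γ → ℝ) (hP : Par r η) (hPSE : ST_PSE)
    (L F : Set (XX r η)) (δ : ℝ) (hδ : δ ≤ 1 / 4) (hF : ∀ q ∈ F, ∃ l ∈ L, ‖q - l‖ ≤ δ)
    (C : Set (T → ℝ)) (hC : FF C) (hCF : PS r η C ⊆ F) (c : T → ℝ) (hc : c ∈ C) :
    c ∈ QL r η L := by
  obtain ⟨q, hq1, hq2⟩ := hPSE Γ r η hP c (hC.2.1 c hc) (hC.2.2 c hc)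
  have hq : q ∈ PS r η C := ⟨hq1, by rw [hq2]; exact hc⟩
  obtain ⟨l, hl, hql⟩ := hF q (hCF hq)
  exact subset_closure ⟨hC.2.2 c hc, q, hq1, hq2, l, hl, hql.trans hδ⟩

theorem st_MAP (hSUPP : ST_SUPP) (hSEP : ST_SEP) (hSL : ST_SL) (hPSW : ST_PSW) (hPSE : ST_PSE)
    (hMIX : ST_MIX) (hRCV : ST_RCV) (hFIN : ST_FIN) (hBND : ST_BND) (hCNT : ST_CNT)
    (hSEG : ST_SEG) (hCCM : ST_CCM) (hBIG : ST_BIG) (hLFT : ST_LFT) : ST_MAP := by
  classical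
  intro Γ r η hP ⟨D, θ, ι, hDc, hDco, hθ, hι, hιθ⟩
  -- separation
  have hf : ∀ d : D, ∃ f : Γ → ℕ, Sep r d.1 f := fun d => hSEP Γ r hP.1 d.1 (hDc d.1 d.2)
  choose fd hfd using hf
  -- data of `K`
  have hdat : ∀ K : WC (XX r η) univ, ∃ (N : ℕ) (d : D), 1 ≤ N ∧ (∀ x ∈ K.1, ‖x‖ ≤ N) ∧
      ∀ p ∈ K.1, ∀ x, x ∉ d.1 → p.1.1 x = 0 := by
    intro K
    obtain ⟨R, hR⟩ := map70_bdd (K := K.1) K.2.2
    obtain ⟨G, hGc, hG⟩ := hSUPP Γ r η hP K.1 K.2.2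
    obtain ⟨d, hd, hGd⟩ := hDco G hGc
    obtain ⟨N, hN⟩ := exists_nat_ge R
    refine ⟨N + 1, ⟨d, hd⟩, by omega, fun x hx => ?_, fun p hp x hx => hG p hp x (fun h => hx (hGd h))⟩
    push_cast
    linarith [hR x hx]
  choose Nf df hN1 hNb hds using hdat
  let K1 : WC (XX r η) univ → Set (XX r η) := fun K => (fun y => ((Nf K : ℝ)⁻¹) • y) '' K.1
  have hNpos : ∀ K, (0 : ℝ) < Nf K := fun K => by exact_mod_cast hN1 K
  have hK1w : ∀ K, WCpt (K1 K) := fun K => map70_smul K.1 K.2.2 _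
  have hK1b : ∀ K, ∀ p ∈ K1 K, ‖p‖ ≤ 1 := by
    rintro K _ ⟨x, hx, rfl⟩
    show ‖((Nf K : ℝ)⁻¹) • x‖ ≤ 1
    rw [norm_smul, Real.norm_eq_abs, abs_of_pos (inv_pos.2 (hNpos K)), inv_mul_le_iff₀ (hNpos K),
      mul_one]
    exact hNb K x hx
  have hK1s : ∀ K, ∀ p ∈ K1 K, ∀ x, x ∉ (df K).1 → p.1.1 x = 0 := by
    rintro K _ ⟨y, hy, rfl⟩ x hx
    show (Nf K : ℝ)⁻¹ • (y.1.1 x) = 0
    rw [hds K y hy x hx, smul_zero]
  let CK : WC (XX r η) univ → Set (T → ℝ) := fun K => cp r η (df K).1 (fd (df K)) '' K1 K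
  have hCK := fun K => hCCM Γ r η hP (df K).1 (fd (df K)) (hfd _) (K1 K) (hK1w K) (hK1b K)
    (hK1s K)
  -- the map
  have hFex : ∀ (ε : ℝ) (K : WC (XX r η) univ), ∃ Q : WC (XX r η) {x | ‖x‖ ≤ 1}, 0 < ε →
      Q.1 = {UX r η (ι (df K))} ∪ PS r η (Sl (CK K) (min (ε / Nf K) 1)) ∪
        PS r η (seg '' {n | n ≤ Nf K}) := by
    intro ε K
    by_cases hε : 0 < ε
    · have hh : 0 < min (ε / Nf K) 1 := lt_min (div_pos hε (hNpos K)) one_pos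
      have h1 := hPSW Γ r η hP _ (hSL (CK K) (hCK K).1 (hCK K).2.1 _ hh)
      have h2 := hPSW Γ r η hP _ (hSEG (Nf K))
      refine ⟨⟨{UX r η (ι (df K))} ∪ PS r η (Sl (CK K) (min (ε / Nf K) 1)) ∪
        PS r η (seg '' {n | n ≤ Nf K}), ?_, ?_⟩, fun _ => rfl⟩
      · rintro q ((hq | hq) | hq)
        · rw [mem_singleton_iff] at hq
          rw [hq]
          exact map70_UX r η hP _
        · exact h1.2 q hq
        · exact h2.2 q hq
      · exact map70_union _ _ (map70_union _ _ (map70_single _) h1.1) h2.1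
    · refine ⟨⟨∅, empty_subset _, ?_⟩, fun h => absurd h hε⟩
      rw [image_empty]
      exact isCompact_empty
  choose F hF using hFex
  refine ⟨F, fun ε hε => ⟨min (θ / 4) (1 / 4), lt_min (by positivity) (by norm_num),
    fun L => ?_⟩⟩
  have hLw : WCpt L.1 := L.2.2
  have hfin := hFIN Γ r η hP θ hθ L.1 hLw
  have hD' : {d : D | ι d ∈ {x : Γ | θ ≤ η x ∧ ∃ l ∈ L.1, ‖UX r η x - l‖ ≤ θ / 4}}.Finite :=
    hfin.preimage hι.injOn
  have hQ := hBND Γ r η hP L.1 hLw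
  obtain ⟨N₀, hN₀⟩ := hCNT _ hQ
  let hf : ℕ → ℝ := fun N => min (ε / N) 1
  let mf : ℕ → ℕ := fun N => ⌈2 / hf N⌉₊
  let C2 : ℕ → Set (T → ℝ) := fun N => Mix (QL r η L.1) (mf N) (hf N) ∩ {c | ∀ t, |c t| ≤ 3}
  have hC2c : ∀ N, IsCompact (C2 N) := by
    intro N
    apply (hMIX _ hQ (mf N) (hf N)).1.inter_right
    have : {c : T → ℝ | ∀ t, |c t| ≤ 3} = ⋂ t, {c : T → ℝ | |c t| ≤ 3} := by
      ext c
      simp
    rw [this]
    exact isClosed_iInter fun t => isClosed_le ((continuous_apply t).abs) continuous_const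
  have hBw : ∀ (N : ℕ) (d : D), WCpt ((fun y => (N : ℝ) • y) '' Big r η d.1 (fd d) (C2 N)) :=
    fun N d => map70_smul _ (hBIG Γ r η hP d.1 (fd d) (hfd d) (C2 N) (hC2c N)
      (fun c hc => (hMIX _ hQ (mf N) (hf N)).2 c hc.1) (fun c hc => hc.2)) _
  refine ⟨⟨⋃ j ∈ (Set.Icc 1 N₀ ×ˢ
      {d : D | ι d ∈ {x : Γ | θ ≤ η x ∧ ∃ l ∈ L.1, ‖UX r η x - l‖ ≤ θ / 4}} : Set (ℕ × D)),
      (fun y => (j.1 : ℝ) • y) '' Big r η j.2.1 (fd j.2) (C2 j.1), subset_univ _,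
      map70_biUnion _ ((Set.finite_Icc 1 N₀).prod hD') _ (fun j _ => hBw j.1 j.2)⟩, ?_⟩
  intro K hK x hx
  have hFK := hF ε K hε
  have hK' : ∀ q ∈ (F ε K).1, ∃ l ∈ L.1, ‖q - l‖ ≤ min (θ / 4) (1 / 4) := hK
  have hh : 0 < min (ε / Nf K) 1 := lt_min (div_pos hε (hNpos K)) one_pos
  -- the countable set
  have hd : df K ∈ {d : D | ι d ∈ {x : Γ | θ ≤ η x ∧ ∃ l ∈ L.1, ‖UX r η x - l‖ ≤ θ / 4}} := by
    obtain ⟨l, hl, hul⟩ := hK' (UX r η (ι (df K))) (by rw [hFK]; exact Or.inl (Or.inl rfl))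
    exact ⟨hιθ _, l, hl, hul.trans (min_le_left _ _)⟩
  -- the number
  have hNN : Nf K ≤ N₀ := by
    apply hN₀
    intro n hn
    refine map70_QL r η hP hPSE L.1 (F ε K).1 _ (min_le_right _ _) hK' _ (hSEG (Nf K)) ?_ _
      ⟨n, hn, rfl⟩
    intro q hq
    rw [hFK]
    exact Or.inr hq
  -- the slices
  have hSF := hSL (CK K) (hCK K).1 (hCK K).2.1 _ hh
  have hsl : ∀ u ∈ Sl (CK K) (min (ε / Nf K) 1), u ∈ QL r η L.1 := by
    intro u hu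
    refine map70_QL r η hP hPSE L.1 (F ε K).1 _ (min_le_right _ _) hK' _ hSF ?_ u hu
    intro q hq
    rw [hFK]
    exact Or.inl (Or.inr hq)
  set p : XX r η := ((Nf K : ℝ)⁻¹) • x with hp
  have hpK : p ∈ K1 K := ⟨x, hx, rfl⟩
  have hcC : cp r η (df K).1 (fd (df K)) p ∈ CK K := ⟨p, hpK, rfl⟩
  have hmh : 2 ≤ (mf (Nf K) : ℝ) * min (ε / Nf K) 1 := by
    have h3 : 2 / hf (Nf K) ≤ (mf (Nf K) : ℝ) := Nat.le_ceil _
    have h4 : 2 / (min (ε / Nf K) 1) ≤ (mf (Nf K) : ℝ) := h3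
    rwa [div_le_iff₀ hh] at h4
  obtain ⟨c', hc'M, hc'⟩ := hRCV (QL r η L.1) (cp r η (df K).1 (fd (df K)) p) (mf (Nf K))
    (min (ε / Nf K) 1) hh hmh (fun t => (hCK K).2.2 _ hcC t) (fun i hi =>
      ⟨hsl _ (subset_closure ⟨_, hcC, i, hi, Or.inl rfl⟩),
        hsl _ (subset_closure ⟨_, hcC, i, hi, Or.inr rfl⟩)⟩)
  obtain ⟨q, hq, hpq⟩ := hLFT Γ r η hP (df K).1 (fd (df K)) (hfd _) p (hK1b K p hpK)
    (hK1s K p hpK) c' (min (ε / Nf K) 1) ((hMIX _ hQ (mf (Nf K)) (hf (Nf K))).2 c' hc'M)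
    (fun t => (hc' t).2) (fun t => (hc' t).1) hh.le (C2 (Nf K))
    ⟨hc'M, fun t => ((hc' t).2).trans (by norm_num)⟩
  refine ⟨(Nf K : ℝ) • q, ?_, ?_⟩
  · rw [mem_iUnion₂]
    refine ⟨(Nf K, df K), ⟨⟨hN1 K, hNN⟩, hd⟩, q, hq, rfl⟩
  · have hxp : x = (Nf K : ℝ) • p := by
      rw [hp, smul_smul, mul_inv_cancel₀ (hNpos K).ne', one_smul]
    have e1 : x - (Nf K : ℝ) • q = (Nf K : ℝ) • (p - q) := by
      rw [smul_sub, ← hxp]
    rw [e1, norm_smul, Real.norm_eq_abs, abs_of_pos (hNpos K)]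
    calc (Nf K : ℝ) * ‖p - q‖ ≤ (Nf K : ℝ) * (ε / Nf K) :=
          mul_le_mul_of_nonneg_left (hpq.trans (min_le_left _ _)) (hNpos K).le
      _ = ε := mul_div_cancel₀ _ (hNpos K).ne'

end

end Pool.Agent.Helper65.JL
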