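import Pool.Agent.Helper65.JL.Stmts
import Pool.Agent.Helper86.TK.Main

/-! Row NEG of project JL. -/

set_option autoImplicit false

open Set Filter Topology Pool.Agent.Helper86.TK

namespace Pool.Agent.Helper65.JL

noncomputable section

theorem neg70_conv {X : Type} [NormedAddCommGroup X] [NormedSpace ℝ X]
    (h : Tuk (AKr X univ) (AKr X {x | ‖x‖ ≤ 1})) :
    ∃ f : ℝ → KW X univ → KW X (Metric.closedBall 0 1), ∀ ε > 0, ∃ δ > 0, ∀ L, ∃ M, ∀ K,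
      LEt δ (f ε K) L → LEt ε K M := by
  obtain ⟨f, hf⟩ := h
  refine ⟨fun ε K => ⟨(f ε ⟨K.1, K.2⟩).1, ?_, (f ε ⟨K.1, K.2⟩).2.2⟩, ?_⟩
  · intro x hx
    rw [Metric.mem_closedBall, dist_zero_right]
    exact (f ε ⟨K.1, K.2⟩).2.1 hx
  · intro ε hε
    obtain ⟨δ, hδ, h1⟩ := hf ε hε
    refine ⟨δ, hδ, fun L => ?_⟩
    obtain ⟨M, hM⟩ := h1 ⟨L.1, fun x hx => by
      have h2 := L.2.1 hx
      rw [Metric.mem_closedBall, dist_zero_right] at h2
      exact h2, L.2.2⟩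
    refine ⟨⟨M.1, M.2⟩, fun K hK => ?_⟩
    exact hM ⟨K.1, K.2⟩ hK

theorem st_NEG : ST_NEG := by
  intro hc
  obtain ⟨r⟩ : Nonempty (GB ↪ (ℕ → Bool)) := fin_cardG hc
  let η : GB → ℝ := fun x => (1 / 2 : ℝ) ^ x.1
  have hP : Par (r : GB → ℕ → Bool) η :=
    ⟨r.injective, fun x => ⟨by positivity, pow_le_one₀ (by norm_num) (by norm_num)⟩⟩
  have hinf : Infinite {x : GB // x.1 = 0} := by
    rw [Cardinal.infinite_iff, fin_cardeq]
    exact Cardinal.aleph0_le_aleph _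
  refine ⟨GB, r, η, hP, ⟨(Infinite.natEmbedding {x : GB // x.1 = 0} 0).1⟩, ?_⟩
  intro hT
  obtain ⟨f, hf⟩ := neg70_conv hT
  obtain ⟨δ, hδ, hfδ⟩ := hf 1 one_pos
  obtain ⟨k, hk⟩ := exists_pow_lt_of_lt_one (show (0 : ℝ) < δ / 4 by positivity)
    (show (1 / 2 : ℝ) < 1 by norm_num)
  set θ : ℝ := (1 / 2 : ℝ) ^ k with hθ
  have hθ0 : 0 < θ := by positivity
  have hθ1 : θ ≤ 1 := pow_le_one₀ (by norm_num) (by norm_num)
  have hsupp : ∀ x : GB, ∃ G : Set GB, G.Countable ∧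
      ∀ p ∈ (f 1 (fin_pt ((4 / θ) • UX (r : GB → ℕ → Bool) η x))).1, ∀ y, y ∉ G → p.1.1 y = 0 :=
    fun x => main_SUPP GB _ η hP _ (f 1 (fin_pt ((4 / θ) • UX (r : GB → ℕ → Bool) η x))).2.2
  choose G hGc hGs using hsupp
  obtain ⟨d, hd, hdJ⟩ := main_PIG k {x : GB // x.1 < k} {x : GB // x.1 = k} (fin_cardlt k)
    (fin_cardeq k) (fun j => {y | y.1 ∈ G j.1})
    (fun j => (hGc j.1).preimage Subtype.val_injective)
  refine fin_core main_FINE main_COARSE (r : GB → ℕ → Bool) η hP θ δ hθ0 hθ1 (by linarith) (f 1)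
    hfδ
    (Subtype.val '' {j : {x : GB // x.1 = k} | {y : {x : GB // x.1 < k} | y.1 ∈ G j.1} ⊆ d}) ?_ ?_
    (Subtype.val '' d) (hd.image _) ?_
  · intro h
    exact hdJ (Set.countable_of_injective_of_countable_image Subtype.val_injective.injOn h)
  · rintro _ ⟨j, -, rfl⟩
    simp only [η]
    rw [j.2]
  · rintro _ ⟨j, hj, rfl⟩ p hp y hy hpy
    have hyG : y ∈ G j.1 := by
      by_contra hcon
      exact hpy (hGs j.1 p hp y hcon)
    by_cases hyk : y.1 < k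
    · exact absurd ⟨⟨y, hyk⟩, hj hyG, rfl⟩ hy
    · simp only [η, θ]
      exact pow_le_pow_of_le_one (by norm_num) (by norm_num) (not_lt.mp hyk)

end

end Pool.Agent.Helper65.JL
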